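import Pool.Agent.K1H34.HYC.Stm

/-! Dense clusters (Reed). -/

set_option autoImplicit false
open Classical Finset

namespace Pool.Agent.K1H45.HYC

open Pool.Agent.K1H34.HYC

section

variable {V : Type} [Fintype V] (G : SimpleGraph V)

/-- the neighbours -/
noncomputable def N (v : V) : Finset V := univ.filter (fun y => G.Adj v y)

variable {G}

theorem mem_N {v y : V} : y ∈ N G v ↔ G.Adj v y := by
  unfold N; simp

theorem dg_mono {A B : Finset V} (h : A ⊆ B) (x : V) : dg G A x ≤ dg G B x :=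
  card_le_card (filter_subset_filter _ h)

theorem dg_le_card (A : Finset V) (x : V) : dg G A x ≤ A.card := card_le_card (filter_subset _ _)

theorem dg_union_inter (A B : Finset V) (x : V) :
    dg G (A ∪ B) x + dg G (A ∩ B) x = dg G A x + dg G B x := by
  unfold dg
  rw [filter_union, filter_inter_distrib, card_union_add_card_inter]

theorem dg_split (A B : Finset V) (x : V) : dg G A x = dg G (A ∩ B) x + dg G (A \ B) x := by
  unfold dg
  rw [← card_union_of_disjoint]
  · congr 1
    ext y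
    simp only [mem_filter, mem_union, mem_inter, mem_sdiff]
    tauto
  · rw [Finset.disjoint_left]
    intro y hy hy'
    simp only [mem_filter, mem_inter, mem_sdiff] at hy hy'
    exact hy'.1.2 hy.1.2

theorem double (S T : Finset V) : ∑ w ∈ S, dg G T w = ∑ a ∈ T, dg G S a := by
  have h := sum_card_bipartiteAbove_eq_sum_card_bipartiteBelow (s := S) (t := T) G.Adj
  refine h.trans (sum_congr rfl fun a _ => ?_)
  unfold dg
  congr 1
  ext y
  simp only [mem_bipartiteBelow, mem_filter]
  rw [G.adj_comm]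

theorem dg_univ (v : V) : dg G univ v = (N G v).card := rfl

/-- common neighbours -/
theorem dg_comm (u v : V) : dg G (N G v) u = (N G u ∩ N G v).card := by
  unfold dg
  congr 1
  ext y
  simp only [mem_filter, mem_inter, mem_N]
  tauto

theorem e2_eq (v : V) :
    (univ.filter (fun z : V × V => G.Adj v z.1 ∧ G.Adj v z.2 ∧ G.Adj z.1 z.2)).card =
      ∑ a ∈ N G v, dg G (N G v) a := by
  rw [card_eq_sum_card_fiberwise (f := Prod.fst) (t := N G v)]
  · refine sum_congr rfl fun a ha => ?_
    unfold dg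
    refine card_bij (fun z _ => z.2) ?_ ?_ ?_
    · rintro ⟨x, y⟩ h
      simp only [mem_filter, mem_univ, true_and] at h
      obtain ⟨⟨h1, h2, h3⟩, h4⟩ := h
      subst h4
      simp only [mem_filter, mem_N]
      exact ⟨h2, h3⟩
    · rintro ⟨x, y⟩ h ⟨x', y'⟩ h' he
      simp only [mem_filter, mem_univ, true_and] at h h'
      simp only at he
      rw [Prod.mk.injEq]
      exact ⟨h.2.trans h'.2.symm, he⟩
    · intro b hb
      simp only [mem_filter, mem_N] at hb
      refine ⟨(a, b), ?_, rfl⟩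
      simp only [mem_filter, mem_univ, true_and, and_true]
      exact ⟨mem_N.1 ha, hb.1, hb.2⟩
  · intro z hz
    simp only [mem_filter, mem_univ, true_and, mem_coe] at hz ⊢
    exact mem_N.2 hz.1

/-- dense vertices -/
def Dn (G : SimpleGraph V) (D : ℕ) (δ : ℝ) (v : V) : Prop :=
  (1 - δ) * (D : ℝ) ^ 2 < ((∑ a ∈ N G v, dg G (N G v) a : ℕ) : ℝ)

variable {D : ℕ} {δ : ℝ}

theorem star (hD : ∀ v, dg G univ v ≤ D) {v : V} (hv : Dn G D δ v) :
    ∑ a ∈ N G v, ((D : ℝ) - dg G (N G v) a) ≤ δ * (D : ℝ) ^ 2 := by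
  rw [sum_sub_distrib, sum_const, nsmul_eq_mul]
  unfold Dn at hv
  push_cast at hv
  have h1 : ((N G v).card : ℝ) ≤ D := by
    have := hD v
    rw [dg_univ] at this
    exact_mod_cast this
  have h2 : ((N G v).card : ℝ) * D ≤ (D : ℝ) ^ 2 := by
    rw [pow_two]
    exact mul_le_mul_of_nonneg_right h1 (Nat.cast_nonneg _)
  linarith

theorem termnn (hD : ∀ v, dg G univ v ≤ D) (A : Finset V) (a : V) : 0 ≤ (D : ℝ) - dg G A a := by
  have h := (dg_mono (G := G) (subset_univ A) a).trans (hD a)
  have h2 : (dg G A a : ℝ) ≤ D := by exact_mod_cast h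
  linarith

theorem large (hD1 : 1 ≤ D) (hD : ∀ v, dg G univ v ≤ D) {v : V} (hv : Dn G D δ v) :
    (1 - δ) * D ≤ ((N G v).card : ℝ) := by
  have h1 : ((∑ a ∈ N G v, dg G (N G v) a : ℕ) : ℝ) ≤ (N G v).card * (D : ℝ) := by
    push_cast
    calc ∑ a ∈ N G v, (dg G (N G v) a : ℝ) ≤ ∑ _a ∈ N G v, (D : ℝ) :=
          sum_le_sum fun a _ => by linarith [termnn hD (N G v) a]
      _ = _ := by rw [sum_const, nsmul_eq_mul]
  have h2 := hv.trans_le h1
  have hDp : (0 : ℝ) < D := by exact_mod_cast hD1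
  by_contra hc
  push Not at hc
  nlinarith

/-- two dense vertices with many common neighbours have almost the same neighbours -/
theorem close (hD1 : 1 ≤ D) (hD : ∀ v, dg G univ v ≤ D) {u v : V} (hu : Dn G D δ u)
    (hv : Dn G D δ v) (h : (D : ℝ) / 4 ≤ (N G u ∩ N G v).card) :
    (1 - 8 * δ) * D ≤ ((N G u ∩ N G v).card : ℝ) := by
  obtain ⟨m, hm⟩ : ∃ m : ℝ, m = ((N G u ∩ N G v).card : ℝ) := ⟨_, rfl⟩
  have hDp : (0 : ℝ) < D := by exact_mod_cast hD1
  have h1 : m * (D - m) ≤ ∑ a ∈ N G u ∩ N G v,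
      (((D : ℝ) - dg G (N G u) a) + ((D : ℝ) - dg G (N G v) a)) := by
    have e : m * (D - m) = ∑ _a ∈ N G u ∩ N G v, ((D : ℝ) - m) := by
      rw [sum_const, nsmul_eq_mul, hm]
    rw [e]
    refine sum_le_sum fun a _ => ?_
    have h2 := dg_union_inter (G := G) (N G u) (N G v) a
    have h3 := (dg_mono (G := G) (subset_univ (N G u ∪ N G v)) a).trans (hD a)
    have h4 := dg_le_card (G := G) (N G u ∩ N G v) a
    have h5 : (dg G (N G u) a : ℝ) + dg G (N G v) a ≤ D + m := by
      rw [hm]
      have : dg G (N G u) a + dg G (N G v) a ≤ D + (N G u ∩ N G v).card := by omega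
      exact_mod_cast this
    linarith
  have h2 : ∑ a ∈ N G u ∩ N G v,
      (((D : ℝ) - dg G (N G u) a) + ((D : ℝ) - dg G (N G v) a)) ≤ 2 * (δ * (D : ℝ) ^ 2) := by
    rw [sum_add_distrib]
    have h3 := (sum_le_sum_of_subset_of_nonneg (inter_subset_left (s₁ := N G u) (s₂ := N G v))
      fun a _ _ => termnn hD (N G u) a).trans (star hD hu)
    have h4 := (sum_le_sum_of_subset_of_nonneg (inter_subset_right (s₁ := N G u) (s₂ := N G v))
      fun a _ _ => termnn hD (N G v) a).trans (star hD hv)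
    linarith
  rw [← hm] at h ⊢
  have h3 : m ≤ D := by
    rw [hm]
    have := (card_le_card (inter_subset_left (s₁ := N G u) (s₂ := N G v))).trans (hD u)
    exact_mod_cast this
  by_contra hc
  push Not at hc
  have h4 : 0 < (D : ℝ) - m - 8 * δ * D := by linarith
  have h5 : (D : ℝ) / 4 * (D - m) ≤ m * (D - m) :=
    mul_le_mul_of_nonneg_right h (by linarith)
  nlinarith [mul_pos hDp h4]

/-- the cluster of `v` -/
noncomputable def Kl (G : SimpleGraph V) (D : ℕ) (v : V) : Finset V :=
  univ.filter (fun w => 3 / 4 * (D : ℝ) ≤ dg G (N G v) w)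

theorem mem_Kl {v w : V} : w ∈ Kl G D v ↔ 3 / 4 * (D : ℝ) ≤ dg G (N G v) w := by
  unfold Kl; simp

theorem Kl_disj (hD1 : 1 ≤ D) (hD : ∀ v, dg G univ v ≤ D) {u v : V}
    (h : ((N G u ∩ N G v).card : ℝ) < D / 4) : Disjoint (Kl G D u) (Kl G D v) := by
  rw [Finset.disjoint_left]
  intro w hw hw'
  rw [mem_Kl] at hw hw'
  have hDp : (0 : ℝ) < D := by exact_mod_cast hD1
  have h2 := dg_union_inter (G := G) (N G u) (N G v) w
  have h3 := (dg_mono (G := G) (subset_univ (N G u ∪ N G v)) w).trans (hD w)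
  have h4 := dg_le_card (G := G) (N G u ∩ N G v) w
  have h5 : (dg G (N G u) w : ℝ) + dg G (N G v) w ≤ D + (N G u ∩ N G v).card := by
    have : dg G (N G u) w + dg G (N G v) w ≤ D + (N G u ∩ N G v).card := by omega
    exact_mod_cast this
  linarith

theorem two_ (hD1 : 1 ≤ D) (hD : ∀ v, dg G univ v ≤ D) {v : V} (hv : Dn G D δ v) :
    ((N G v \ Kl G D v).card : ℝ) ≤ 4 * δ * D := by
  have hDp : (0 : ℝ) < D := by exact_mod_cast hD1
  have h1 : ((N G v \ Kl G D v).card : ℝ) * (D / 4) ≤ δ * (D : ℝ) ^ 2 := by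
    calc ((N G v \ Kl G D v).card : ℝ) * (D / 4) = ∑ _a ∈ N G v \ Kl G D v, ((D : ℝ) / 4) := by
          rw [sum_const, nsmul_eq_mul]
      _ ≤ ∑ a ∈ N G v \ Kl G D v, ((D : ℝ) - dg G (N G v) a) := by
          refine sum_le_sum fun a ha => ?_
          rw [mem_sdiff, mem_Kl] at ha
          have := ha.2
          push Not at this
          linarith
      _ ≤ ∑ a ∈ N G v, ((D : ℝ) - dg G (N G v) a) :=
          sum_le_sum_of_subset_of_nonneg sdiff_subset fun a _ _ => termnn hD (N G v) a
      _ ≤ _ := star hD hv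
  by_contra hc
  push Not at hc
  nlinarith

theorem outer (hD : ∀ v, dg G univ v ≤ D) {v : V} (hv : Dn G D δ v) :
    ∑ a ∈ N G v, (dg G (univ \ N G v) a : ℝ) ≤ δ * (D : ℝ) ^ 2 := by
  refine (sum_le_sum fun a _ => ?_).trans (star hD hv)
  have h1 := dg_split (G := G) univ (N G v) a
  rw [univ_inter] at h1
  have h2 := hD a
  have h3 : dg G (univ \ N G v) a + dg G (N G v) a ≤ D := by omega
  have h4 : (dg G (univ \ N G v) a : ℝ) + dg G (N G v) a ≤ D := by exact_mod_cast h3
  linarith

theorem three (hD1 : 1 ≤ D) (hD : ∀ v, dg G univ v ≤ D) {v : V} (hv : Dn G D δ v) :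
    ((Kl G D v \ N G v).card : ℝ) ≤ 4 / 3 * δ * D := by
  have hDp : (0 : ℝ) < D := by exact_mod_cast hD1
  have h1 : ((Kl G D v \ N G v).card : ℝ) * (3 / 4 * D) ≤ δ * (D : ℝ) ^ 2 := by
    calc ((Kl G D v \ N G v).card : ℝ) * (3 / 4 * D) =
          ∑ _a ∈ Kl G D v \ N G v, (3 / 4 * (D : ℝ)) := by rw [sum_const, nsmul_eq_mul]
      _ ≤ ∑ w ∈ Kl G D v \ N G v, (dg G (N G v) w : ℝ) := by
          refine sum_le_sum fun a ha => ?_
          rw [mem_sdiff, mem_Kl] at ha
          exact ha.1
      _ = ∑ a ∈ N G v, (dg G (Kl G D v \ N G v) a : ℝ) := by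
          have := double (G := G) (Kl G D v \ N G v) (N G v)
          exact_mod_cast this
      _ ≤ ∑ a ∈ N G v, (dg G (univ \ N G v) a : ℝ) := by
          refine sum_le_sum fun a _ => ?_
          have := dg_mono (G := G) (sdiff_subset_sdiff (subset_univ (Kl G D v))
            (le_refl (N G v))) a
          exact_mod_cast this
      _ ≤ _ := outer hD hv
  by_contra hc
  push Not at hc
  nlinarith

end

theorem t_CLUS : S_CLUS := by
  intro V _ G D δ hD1 hδ hδ1 hD
  have hDp : (0 : ℝ) < D := by exact_mod_cast hD1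
  -- a maximal set
  let P : Finset V → Prop := fun I => (∀ v ∈ I, Dn G D δ v) ∧
    ∀ u ∈ I, ∀ v ∈ I, u ≠ v → ((N G u ∩ N G v).card : ℝ) < D / 4
  have hP0 : P ∅ := ⟨fun v hv => absurd hv (notMem_empty v), fun u hu => absurd hu (notMem_empty u)⟩
  obtain ⟨I, hI, hmax⟩ := exists_max_image (univ.filter P) card
    ⟨∅, mem_filter.2 ⟨mem_univ _, hP0⟩⟩
  rw [mem_filter] at hI
  obtain ⟨-, hI1, hI2⟩ := hI
  have hcov : ∀ u, Dn G D δ u → ∃ v ∈ I, u ∈ Kl G D v := by
    intro u hu
    by_cases huI : u ∈ I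
    · refine ⟨u, huI, mem_Kl.2 ?_⟩
      rw [dg_comm, inter_self]
      have := large hD1 hD hu
      nlinarith
    · by_contra hc
      push Not at hc
      have hfar : ∀ v ∈ I, ((N G u ∩ N G v).card : ℝ) < D / 4 := by
        intro v hv
        by_contra h2
        push Not at h2
        have h3 := close hD1 hD hu (hI1 v hv) h2
        refine hc v hv (mem_Kl.2 ?_)
        rw [dg_comm]
        nlinarith
      have hP : P (insert u I) := by
        refine ⟨fun v hv => ?_, fun x hx y hy hxy => ?_⟩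
        · rw [mem_insert] at hv
          rcases hv with rfl | hv
          · exact hu
          · exact hI1 v hv
        · rw [mem_insert] at hx hy
          rcases hx with rfl | hx
          · rcases hy with rfl | hy
            · exact absurd rfl hxy
            · exact hfar y hy
          · rcases hy with rfl | hy
            · rw [inter_comm]
              exact hfar x hx
            · exact hI2 x hx y hy hxy
      have h3 := hmax (insert u I) (mem_filter.2 ⟨mem_univ _, hP⟩)
      rw [card_insert_of_notMem huI] at h3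
      omega
  refine ⟨I, Kl G D, fun i hi j hj hij => Kl_disj hD1 hD (hI2 i hi j hj hij), ?_, ?_, ?_, ?_, ?_⟩
  · intro v hv
    by_contra hc
    push Not at hc
    rw [e2_eq] at hc
    obtain ⟨i, hi, h⟩ := hcov v hc
    exact hv i hi h
  · intro v hv
    have hd := hI1 v hv
    have h2 := two_ hD1 hD hd
    have h3 := three hD1 hD hd
    have h4 := large hD1 hD hd
    have h5 : ((N G v).card : ℝ) ≤ D := by exact_mod_cast hD v
    have e1 : (N G v).card ≤ (Kl G D v).card + (N G v \ Kl G D v).card := by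
      have := card_le_card (show N G v ⊆ Kl G D v ∪ (N G v \ Kl G D v) from fun x hx => by
        rw [mem_union, mem_sdiff]; tauto)
      exact this.trans (card_union_le _ _)
    have e2 : (Kl G D v).card ≤ (N G v).card + (Kl G D v \ N G v).card := by
      have := card_le_card (show Kl G D v ⊆ N G v ∪ (Kl G D v \ N G v) from fun x hx => by
        rw [mem_union, mem_sdiff]; tauto)
      exact this.trans (card_union_le _ _)
    have e1' : ((N G v).card : ℝ) ≤ (Kl G D v).card + (N G v \ Kl G D v).card := by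
      exact_mod_cast e1
    have e2' : ((Kl G D v).card : ℝ) ≤ (N G v).card + (Kl G D v \ N G v).card := by
      exact_mod_cast e2
    constructor <;> nlinarith
  · intro v hv w hw
    rw [mem_Kl] at hw
    have h2 := two_ hD1 hD (hI1 v hv)
    have h3 := dg_split (G := G) (N G v) (Kl G D v) w
    have h4 := dg_mono (G := G) (inter_subset_right (s₁ := N G v) (s₂ := Kl G D v)) w
    have h5 := dg_le_card (G := G) (N G v \ Kl G D v) w
    have h6 : dg G (N G v) w ≤ dg G (Kl G D v) w + (N G v \ Kl G D v).card := by omega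
    have h7 : (dg G (N G v) w : ℝ) ≤ dg G (Kl G D v) w + (N G v \ Kl G D v).card := by
      exact_mod_cast h6
    linarith
  · intro v hv w hw
    rw [mem_Kl] at hw
    push Not at hw
    have h2 := three hD1 hD (hI1 v hv)
    have h3 := dg_split (G := G) (Kl G D v) (N G v) w
    have h4 := dg_mono (G := G) (inter_subset_right (s₁ := Kl G D v) (s₂ := N G v)) w
    have h5 := dg_le_card (G := G) (Kl G D v \ N G v) w
    have h6 : dg G (Kl G D v) w ≤ dg G (N G v) w + (Kl G D v \ N G v).card := by omega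
    have h7 : (dg G (Kl G D v) w : ℝ) ≤ dg G (N G v) w + (Kl G D v \ N G v).card := by
      exact_mod_cast h6
    nlinarith
  · intro v hv
    have hd := hI1 v hv
    have h2 := two_ hD1 hD hd
    have h3 := three hD1 hD hd
    have h4 := outer hD hd
    set K := Kl G D v with hK
    have e0 : ∑ w ∈ K, (dg G (univ \ K) w : ℝ) =
        ∑ w ∈ K ∩ N G v, (dg G (univ \ K) w : ℝ) + ∑ w ∈ K \ N G v, (dg G (univ \ K) w : ℝ) := by
      rw [← sum_union]
      · congr 1
        ext x
        rw [mem_union, mem_inter, mem_sdiff]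
        tauto
      · rw [Finset.disjoint_left]
        intro x hx hx'
        exact (mem_sdiff.1 hx').2 (mem_inter.1 hx).2
    have e1 : ∑ w ∈ K ∩ N G v, (dg G (univ \ K) w : ℝ) ≤
        ∑ w ∈ K ∩ N G v, (dg G (univ \ N G v) w : ℝ) +
          ∑ w ∈ K ∩ N G v, (dg G (N G v \ K) w : ℝ) := by
      rw [← sum_add_distrib]
      refine sum_le_sum fun w _ => ?_
      have f1 := dg_union_inter (G := G) (univ \ N G v) (N G v \ K) w
      have f2 : univ \ K ⊆ (univ \ N G v) ∪ (N G v \ K) := by
        intro x hx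
        simp only [mem_sdiff, mem_univ, true_and, mem_union] at hx ⊢
        tauto
      have f3 := dg_mono (G := G) f2 w
      have f4 : dg G (univ \ K) w ≤ dg G (univ \ N G v) w + dg G (N G v \ K) w := by omega
      exact_mod_cast f4
    have e2 : ∑ w ∈ K ∩ N G v, (dg G (univ \ N G v) w : ℝ) ≤ δ * (D : ℝ) ^ 2 :=
      (sum_le_sum_of_subset_of_nonneg inter_subset_right fun a _ _ => Nat.cast_nonneg _).trans h4
    have e3 : ∑ w ∈ K ∩ N G v, (dg G (N G v \ K) w : ℝ) ≤ (N G v \ K).card * (D : ℝ) := by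
      have f1 := double (G := G) (K ∩ N G v) (N G v \ K)
      have f2 : ∑ w ∈ K ∩ N G v, (dg G (N G v \ K) w : ℝ) =
          ∑ a ∈ N G v \ K, (dg G (K ∩ N G v) a : ℝ) := by exact_mod_cast f1
      rw [f2]
      calc ∑ a ∈ N G v \ K, (dg G (K ∩ N G v) a : ℝ) ≤ ∑ _a ∈ N G v \ K, (D : ℝ) :=
            sum_le_sum fun a _ => by linarith [termnn hD (K ∩ N G v) a]
        _ = _ := by rw [sum_const, nsmul_eq_mul]
    have e4 : ∑ w ∈ K \ N G v, (dg G (univ \ K) w : ℝ) ≤ (K \ N G v).card * (D : ℝ) := by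
      calc ∑ a ∈ K \ N G v, (dg G (univ \ K) a : ℝ) ≤ ∑ _a ∈ K \ N G v, (D : ℝ) :=
            sum_le_sum fun a _ => by linarith [termnn hD (univ \ K) a]
        _ = _ := by rw [sum_const, nsmul_eq_mul]
    have e5 : ((N G v \ K).card : ℝ) * D ≤ 4 * δ * D * D :=
      mul_le_mul_of_nonneg_right h2 hDp.le
    have e6 : ((K \ N G v).card : ℝ) * D ≤ 4 / 3 * δ * D * D :=
      mul_le_mul_of_nonneg_right h3 hDp.le
    have e7 : 0 ≤ δ * (D : ℝ) ^ 2 := by positivity
    rw [e0]
    nlinarith

end Pool.Agent.K1H45.HYC
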